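import Mathlib
import Pool.Agent.R830.Fix.Defs
import Pool.Agent.R830.Fix.Trace
import Pool.Agent.R830.Fam.Poly

/-! A fixed ideal of an `F`-finite Gorenstein ring which is not a trace ideal. -/

open Pool.Agent.R830.Fix Pool.Agent.R830.Fam in
/-- Let `R = F_3[t][x]/(x^3 - t^2 x)`, a plane curve singularity (three concurrent lines over
`F_3`); it is free over `A = F_3[t]` and `Hom_A(R, A) ≅ R`.  The ring `R` is `F`-finite and has a
fixed ideal which is the trace ideal of no finite extension of `R`. -/
theorem Pool.Agent.Results.MP_3a4337_ag.FixedNotTrace.result :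
    IsNoetherianRing R ∧ CharP R 3 ∧ (frobenius R 3).Finite ∧
      (Module.Finite A R ∧ Module.Free A R ∧
        ∃ θ : R →ₗ[A] A, Function.Bijective (fun r : R => θ.comp (LinearMap.mulLeft A r))) ∧
      ∃ I : Ideal R, IsFixed 3 I ∧
        ∀ (S : Type) [CommRing S] [Algebra R S], Module.Finite R S →
          traceSet R S ≠ (I : Set R) := by
  have hfin : Module.Finite A R := Module.Finite.of_basis B
  have hfree : Module.Free A R := Module.Free.of_basis B
  have hft : Algebra.FiniteType A R := inferInstance
  have hft2 : Algebra.FiniteType (ZMod 3) R :=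
    Algebra.FiniteType.trans (S := A) inferInstance hft
  exact ⟨Algebra.FiniteType.isNoetherianRing (ZMod 3) R, inferInstance,
    ffinite_of_finiteType 3 R, ⟨hfin, hfree, θ, gorenstein⟩, I,
    ⟨Φ, ⟨Φ_cartier, Φ_generates⟩, Φ_I⟩, fun S _ _ _ => trace_ne S⟩
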